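import Pool.Agent.Helper14.GS.StD

set_option autoImplicit false

namespace Pool.Agent.Helper57.GS

open Pool.Agent.Helper14.GS Pool.Agent.Helper10.EP Polynomial Finset

/-- the exponential polynomial -/
private noncomputable def FF (P : ℝ[X]) (μ : ℂ) (a : ℕ) : ℂ → ℂ :=
  fun w => aeval w (hasseDeriv a P) * Complex.exp (μ * w)

private lemma FF_contDiff (P : ℝ[X]) (μ : ℂ) (a : ℕ) (n : ℕ) : ContDiff ℂ n (FF P μ a) := by
  unfold FF
  exact (Polynomial.contDiff_aeval _ _).mul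
    (Complex.contDiff_exp.comp (contDiff_const.mul contDiff_id))

private lemma FF_hasDeriv (P : ℝ[X]) (μ : ℂ) (a : ℕ) (z : ℂ) :
    HasDerivAt (FF P μ a) (((a : ℂ) + 1) * FF P μ (a + 1) z + μ * FF P μ a z) z := by
  have h1 : HasDerivAt (fun w : ℂ => aeval w (hasseDeriv a P))
      (aeval z (derivative (hasseDeriv a P))) z := Polynomial.hasDerivAt_aeval _ _
  have h2 : HasDerivAt (fun w : ℂ => Complex.exp (μ * w)) (Complex.exp (μ * z) * (μ * 1)) z :=
    ((hasDerivAt_id z).const_mul μ).cexp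
  have h3 : derivative (hasseDeriv a P) = (a + 1) • hasseDeriv (a + 1) P := by
    have h := congrArg (fun L : ℝ[X] →ₗ[ℝ] ℝ[X] => L P) (hasseDeriv_comp (R := ℝ) 1 a)
    simp only [LinearMap.comp_apply, hasseDeriv_one, LinearMap.smul_apply, Nat.choose_one_right]
      at h
    rw [h, add_comm 1 a]
  have h4 := h1.mul h2
  rw [h3] at h4
  refine h4.congr_deriv ?_
  unfold FF
  rw [map_nsmul, nsmul_eq_mul]
  push_cast
  ring

private lemma key (t₁ : ℕ) : ∀ t₀ : ℕ, ∃ g : ℕ → ℂ, ∀ (P : ℝ[X]) (μ z : ℂ),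
    FF P μ t₀ z * μ ^ t₁ = ∑ i ∈ range (t₁ + 1), g i * iteratedDeriv (t₁ - i) (FF P μ (t₀ + i)) z := by
  induction t₁ with
  | zero =>
    intro t₀
    exact ⟨fun _ => 1, fun P μ z => by simp⟩
  | succ t₁ ih =>
    intro t₀
    obtain ⟨g, hg⟩ := ih t₀
    obtain ⟨g', hg'⟩ := ih (t₀ + 1)
    refine ⟨fun i => (if i ≤ t₁ then g i else 0) - (if i = 0 then 0 else ((t₀ : ℂ) + 1) * g' (i - 1)),
      ?_⟩
    intro P μ z
    -- differentiate
    have hd1 : HasDerivAt (fun w => FF P μ t₀ w * μ ^ t₁)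
        ((((t₀ : ℂ) + 1) * FF P μ (t₀ + 1) z + μ * FF P μ t₀ z) * μ ^ t₁) z :=
      (FF_hasDeriv P μ t₀ z).mul_const _
    have hd2 : HasDerivAt (fun w => ∑ i ∈ range (t₁ + 1), g i * iteratedDeriv (t₁ - i) (FF P μ (t₀ + i)) w)
        (∑ i ∈ range (t₁ + 1), g i * iteratedDeriv (t₁ - i + 1) (FF P μ (t₀ + i)) z) z := by
      apply HasDerivAt.fun_sum
      intro i _
      apply HasDerivAt.const_mul
      rw [iteratedDeriv_succ]
      apply DifferentiableAt.hasDerivAt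
      have h1 := (FF_contDiff P μ (t₀ + i) (t₁ - i + 1)).differentiable_iteratedDeriv (t₁ - i)
        (by exact_mod_cast Nat.lt_succ_self _)
      exact h1 z
    have heq : (fun w => FF P μ t₀ w * μ ^ t₁) =
        fun w => ∑ i ∈ range (t₁ + 1), g i * iteratedDeriv (t₁ - i) (FF P μ (t₀ + i)) w := by
      funext w
      exact hg P μ w
    rw [heq] at hd1
    have hu := hd1.unique hd2
    have h5 := hg' P μ z
    have e1 : FF P μ t₀ z * μ ^ (t₁ + 1) =
        (∑ i ∈ range (t₁ + 1), g i * iteratedDeriv (t₁ - i + 1) (FF P μ (t₀ + i)) z) -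
          ((t₀ : ℂ) + 1) * ∑ i ∈ range (t₁ + 1), g' i * iteratedDeriv (t₁ - i) (FF P μ (t₀ + 1 + i)) z := by
      rw [← hu, ← h5]
      ring
    rw [e1]
    simp only [sub_mul, Finset.sum_sub_distrib]
    congr 1
    · rw [Finset.sum_range_succ _ (t₁ + 1), if_neg (by omega), zero_mul, add_zero]
      apply Finset.sum_congr rfl
      intro i hi
      have hi' : i ≤ t₁ := Nat.lt_succ_iff.1 (Finset.mem_range.1 hi)
      rw [if_pos hi']
      congr 2
      omega
    · rw [Finset.sum_range_succ' _ (t₁ + 1), if_pos rfl, zero_mul, add_zero, Finset.mul_sum]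
      apply Finset.sum_congr rfl
      intro i _
      rw [if_neg (by omega), mul_assoc]
      congr 3
      · omega
      · congr 1
        omega

theorem D10 : StD10 := by
  intro T t₀ t₁ hT
  obtain ⟨g, hg⟩ := key t₁ t₀
  refine ⟨fun a j => ∑ i ∈ range (t₁ + 1),
    if (a : ℕ) = t₀ + i ∧ (j : ℕ) = t₁ - i then g i else 0, ?_⟩
  intro P μ z
  have h := hg P μ z
  have e0 : aeval z (hasseDeriv t₀ P) * μ ^ t₁ * Complex.exp (μ * z) = FF P μ t₀ z * μ ^ t₁ := by
    unfold FF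
    ring
  rw [e0, h]
  show _ = ∑ a : Fin T, ∑ j : Fin T, (∑ i ∈ range (t₁ + 1),
    if (a : ℕ) = t₀ + i ∧ (j : ℕ) = t₁ - i then g i else 0) * iteratedDeriv (j : ℕ) (FF P μ a) z
  simp only [Finset.sum_mul]
  have h2 : ∀ a : Fin T, ∑ j : Fin T, ∑ i ∈ range (t₁ + 1),
      (if (a : ℕ) = t₀ + i ∧ (j : ℕ) = t₁ - i then g i else 0) * iteratedDeriv (j : ℕ) (FF P μ a) z =
      ∑ i ∈ range (t₁ + 1), ∑ j : Fin T,
      (if (a : ℕ) = t₀ + i ∧ (j : ℕ) = t₁ - i then g i else 0) * iteratedDeriv (j : ℕ) (FF P μ a) z :=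
    fun a => Finset.sum_comm
  rw [Finset.sum_congr rfl (fun a _ => h2 a), Finset.sum_comm]
  apply Finset.sum_congr rfl
  intro i hi
  have hi' : i ≤ t₁ := Nat.lt_succ_iff.1 (Finset.mem_range.1 hi)
  have ha : t₀ + i < T := by omega
  have hj : t₁ - i < T := by omega
  rw [Finset.sum_eq_single (⟨t₀ + i, ha⟩ : Fin T)]
  · rw [Finset.sum_eq_single (⟨t₁ - i, hj⟩ : Fin T)]
    · rw [if_pos ⟨rfl, rfl⟩]
    · intro j _ hne
      rw [if_neg, zero_mul]
      rintro ⟨-, h4⟩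
      exact hne (Fin.ext h4)
    · intro h4
      exact absurd (Finset.mem_univ _) h4
  · intro a _ hne
    apply Finset.sum_eq_zero
    intro j _
    rw [if_neg, zero_mul]
    rintro ⟨h4, -⟩
    exact hne (Fin.ext h4)
  · intro h4
    exact absurd (Finset.mem_univ _) h4

end Pool.Agent.Helper57.GS
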